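import Mathlib
import Pool.Agent.Helper56.LP.Acc

/-!
# The ACC for minimal log discrepancies of nondegenerate pairs

`Y ∋ P`: an affine toric variety of dimension `d + r` with a fixed point, given by any strictly
convex rational cone of dimension `d + r` (simplicial or not). `Z ⊂ Y`: a subvariety through `P` of
any codimension `r ≥ 0`, the closure of the zero set `{F_1 = ... = F_r = 0}` in the torus of Laurent
polynomials `F_j` which generate a prime ideal. `G_1, ..., G_s`: any number of Laurent polynomials
which do not vanish identically on `Z`. The system is nondegenerate at `P` (Kouchnirenko, Khovanskii):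
for all weights `w` in the interior of the cone the zero set in the torus of the initial forms of
`F_1, ..., F_r` is smooth of codimension `r` or empty, and the zero sets of the initial forms of the
`G_k` are smooth on it and meet transversally.
The boundary on `Z`: the one of `(K_Y + X_1 + ... + X_r + ∑ b_k G_k + ∑ β_i D_i)|_Z`, where `X_j` and
`G_k` are the closures of the zero sets of `F_j` and `G_k`, the `D_i` are the toric prime divisors,
`0 ≤ b_k ≤ 1` and `β_i ≥ 0`. `Z` is normal and of klt type (in the embedded sense: for some boundary
of this form the pair on `Y` is klt for the toric valuations over `P`, uniformly).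

`(X, B)`: any pair, `B` effective, `K_X + B` `ℝ`-Cartier at the closed point `x`, whose germ at `x` is
étale locally isomorphic to the germ of such a nondegenerate pair at `P` (`Chart`, `Chart.IsBdryAt`):
there is a variety `U` with étale morphisms to `X` and `Z` and a closed point over `x` and `P`, such
that the pull-backs of `K_X + B` and of `(K_Y + X_1 + ... + X_r + ∑ b_k G_k + ∑ β_i D_i)|_Z` agree there.

Theorem: for every `N` and every DCC set `Γ` the set of the minimal log discrepancies `m ≥ 0` of these
pairs `(X ∋ x, B)` with `d + r ≤ N`, `b_k ∈ Γ ∪ {0}` and `β_i ∈ Γ ∪ {0}` satisfies the ascending chain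
condition. The number `s` of the components `G_k` is arbitrary.

The proof shows that the minimal log discrepancy is the least value of the toric log discrepancy
`ψ · w - φ_(F_1) (w) - ... - φ_(F_r) (w) - ∑ b_k φ_(G_k) (w)` at the lattice points `w` in the interior of
the cone (`formP` in `Pool.Agent.Helper56.LP.Form`), where `y^(-ψ) ∏ G_k^(b_k)` is the local equation
and `φ_F (w)` is the least weight of a monomial of `F`. For `d + r ≤ N` these numbers are minimal log
discrepancies of monomial pairs on quotient singularities of dimension at most `N`, with coefficients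
in `Γ ∪ {1}`.

All definitions are in `Pool.Agent.Helper56.LP.AccDefs` (`Chart.IsBdryAt`, `pairMlds`),
`Pool.Agent.Helper56.LP.EtDefs` (`Chart`), `Pool.Agent.Helper56.LP.Defs` (`Bdry`, `laP`,
`NondegPair`, `KltPair`) and in the library: `CIGerm` (`Helper43K9.CI.Defs`), `wt`, `Inn`, `expo`,
`phi`, `dot` (`Helper43K9.NH.Defs`), `Etale`, `OverPt`, `Ext`, `ordE` (`Helper58K9.ET.Defs`),
`AffVar`, `Pt`, `EffDiv`, `LocEq`, `IsLogDisc`, `IsMld` (`W497.Mld.Defs`, `H436R3`), `IsDCC`, `IsACC`
(`TH165.ACC.Main`).
-/

set_option autoImplicit false

namespace Pool.Agent.Results.MP_df5e61_ag.NondegeneratePairs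

open Pool.Agent.TH165.ACC Pool.Agent.Helper56.LP

/-- **The ACC for minimal log discrepancies of étale locally nondegenerate pairs.** -/
theorem result (N : ℕ) (Γ : Set ℝ) (hΓ : Pool.Agent.TH165.ACC.IsDCC Γ) :
    IsACC (pairMlds N Γ) :=
  acc_pairMlds N hΓ

end Pool.Agent.Results.MP_df5e61_ag.NondegeneratePairs
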